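import Pool.Agent.K1H76.RG.Stm
import Pool.Agent.R361.AC.Anti

set_option autoImplicit false

namespace Pool.Agent.K1H41.RG

open Finset Pool.Agent.K1H76.RG Pool.Agent.R361.AC

lemma choose_half_small (ε : ℝ) (hε : 0 < ε) : ∃ K1 : ℕ, ∀ s ≥ K1,
    ((s.choose (s / 2) : ℕ) : ℝ) ≤ ε * 2 ^ s := by
  obtain ⟨K0, hK0⟩ := binom_small ε hε
  refine ⟨2 * K0, fun s hs => ?_⟩
  rcases Nat.even_or_odd' s with ⟨n, rfl | rfl⟩
  · have := hK0 n (by omega)
    rwa [show 2 * n / 2 = n by omega]
  · have h1 := hK0 n (by omega)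
    have h2 : (2 * n + 1).choose ((2 * n + 1) / 2) ≤ 2 * (2 * n).choose n := by
      rw [show (2 * n + 1) / 2 = n by omega]
      rcases Nat.eq_zero_or_pos n with h | h
      · subst h; simp
      · obtain ⟨m, rfl⟩ : ∃ m, n = m + 1 := ⟨n - 1, by omega⟩
        rw [show (2 * (m + 1) + 1).choose (m + 1) =
          (2 * (m + 1)).choose m + (2 * (m + 1)).choose (m + 1) from Nat.choose_succ_succ _ _]
        have := Nat.choose_le_middle m (2 * (m + 1))
        rw [show 2 * (m + 1) / 2 = m + 1 by omega] at this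
        omega
    have h3 : (((2 * n + 1).choose ((2 * n + 1) / 2) : ℕ) : ℝ) ≤ 2 * (((2 * n).choose n : ℕ) : ℝ) := by
      exact_mod_cast h2
    calc _ ≤ 2 * (((2 * n).choose n : ℕ) : ℝ) := h3
      _ ≤ 2 * (ε * 2 ^ (2 * n)) := by linarith
      _ = ε * 2 ^ (2 * n + 1) := by ring

open Classical in
lemma count_swap {d : ℕ} (z0 z1 : Fin d)
    {κ : Type} [Fintype κ] (T : Finset κ) (δ : ℝ) (hδ : 0 < δ)
    (f : κ → Fin d → ℝ) (hf : ∀ q i, 0 < f q i)
    (hgap : ∀ q ∈ T, (1 + δ) * f q z1 ≤ f q z0) (a : ℝ) :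
    (#((Finset.univ : Finset (κ → Fin d)).filter fun v =>
        a ≤ ∏ q, f q (v q) ∧ ∏ q, f q (v q) < (1 + δ) * a) : ℝ) ≤
      ∑ v : κ → Fin d, (((#(T.filter fun q => v q = z0 ∨ v q = z1)).choose
        (#(T.filter fun q => v q = z0 ∨ v q = z1) / 2) : ℕ) : ℝ) /
          2 ^ #(T.filter fun q => v q = z0 ∨ v q = z1) := by
  set Bad := (Finset.univ : Finset (κ → Fin d)).filter fun v =>
        a ≤ ∏ q, f q (v q) ∧ ∏ q, f q (v q) < (1 + δ) * a with hBad
  set act : (κ → Fin 1 × Bool) → (κ → Fin d) → (κ → Fin d) := fun x v q =>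
    if q ∈ T ∧ (x q).2 = true then Equiv.swap z0 z1 (v q) else v q with hact
  have hinv : ∀ x, Function.Involutive (act x) := by
    intro x v
    funext q
    simp only [hact]
    split_ifs with hq
    · simp
    · rfl
  have h1 : ∀ x : κ → Fin 1 × Bool, #(univ.filter (fun v => act x v ∈ Bad)) = #Bad := by
    intro x
    have : univ.filter (fun v => act x v ∈ Bad) = Bad.map (hinv x).toPerm.toEmbedding := by
      ext v
      simp only [mem_filter, mem_univ, true_and, mem_map, Equiv.toEmbedding_apply,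
        Function.Involutive.coe_toPerm]
      constructor
      · intro hx
        exact ⟨act x v, hx, hinv x v⟩
      · rintro ⟨y, hy, rfl⟩
        rwa [hinv x y]
    rw [this, card_map]
  have h2 : #Bad * 2 ^ Fintype.card κ =
      ∑ x : κ → Fin 1 × Bool, #(univ.filter (fun v => act x v ∈ Bad)) := by
    rw [sum_congr rfl fun x _ => h1 x, sum_const, card_univ, smul_eq_mul, mul_comm]
    congr 1
    simp
  have h3 : ∑ x : κ → Fin 1 × Bool, #(univ.filter (fun v => act x v ∈ Bad)) =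
      ∑ v : κ → Fin d, #(univ.filter (fun x => act x v ∈ Bad)) := by
    simp only [card_filter]
    rw [sum_comm]
  have h4 : ∀ v : κ → Fin d, #(univ.filter (fun x => act x v ∈ Bad)) *
      2 ^ #(T.filter fun q => v q = z0 ∨ v q = z1) ≤ 2 ^ Fintype.card κ *
      ((#(T.filter fun q => v q = z0 ∨ v q = z1)).choose
        (#(T.filter fun q => v q = z0 ∨ v q = z1) / 2)) := by
    intro v
    have := patterns 1 (fun q (z : Fin 1 × Bool) => f q (if q ∈ T ∧ z.2 = true then
      Equiv.swap z0 z1 (v q) else v q)) (fun q z => hf _ _)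
      (T.filter fun q => v q = z0 ∨ v q = z1) δ hδ ?_ a
    · simp only [mul_one] at this
      convert this using 3
      ext x
      simp [hBad, hact]
    · intro q hq r
      rw [mem_filter] at hq
      have hg := hgap q hq.1
      rcases hq.2 with h | h
      · right
        simp only [hq.1, h]
        simpa using hg
      · left
        simp only [hq.1, h]
        simpa using hg
  have h5 : (#Bad : ℝ) * 2 ^ Fintype.card κ = ∑ v : κ → Fin d,
      (#(univ.filter (fun x => act x v ∈ Bad)) : ℝ) := by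
    have := h2.trans h3
    exact_mod_cast this
  have h6 : (#Bad : ℝ) * 2 ^ Fintype.card κ ≤ (∑ v : κ → Fin d,
      (((#(T.filter fun q => v q = z0 ∨ v q = z1)).choose
        (#(T.filter fun q => v q = z0 ∨ v q = z1) / 2) : ℕ) : ℝ) /
          2 ^ #(T.filter fun q => v q = z0 ∨ v q = z1)) * 2 ^ Fintype.card κ := by
    rw [h5, sum_mul]
    apply sum_le_sum
    intro v _
    have h7 : (#(univ.filter (fun x => act x v ∈ Bad)) : ℝ) *
        2 ^ #(T.filter fun q => v q = z0 ∨ v q = z1) ≤ 2 ^ Fintype.card κ *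
        ((#(T.filter fun q => v q = z0 ∨ v q = z1)).choose
        (#(T.filter fun q => v q = z0 ∨ v q = z1) / 2) : ℕ) := by
      exact_mod_cast h4 v
    rw [div_mul_eq_mul_div, le_div_iff₀ (by positivity)]
    linarith
  exact le_of_mul_le_mul_right h6 (by positivity)

open Classical in
lemma sum_weights {d : ℕ} (z0 z1 : Fin d) (hz : z0 ≠ z1)
    {κ : Type} [Fintype κ] (T : Finset κ) :
    ∑ v : κ → Fin d, (1 / 2 : ℝ) ^ #(T.filter fun q => v q = z0 ∨ v q = z1) =
      ((d : ℝ) - 1) ^ #T * (d : ℝ) ^ (Fintype.card κ - #T) := by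
  have e1 : ∀ v : κ → Fin d, (1 / 2 : ℝ) ^ #(T.filter fun q => v q = z0 ∨ v q = z1) =
      ∏ q, (if q ∈ T ∧ (v q = z0 ∨ v q = z1) then (1 / 2 : ℝ) else 1) := by
    intro v
    rw [prod_ite, prod_const, prod_const_one, mul_one]
    congr 2
    ext q
    simp
  rw [sum_congr rfl fun v _ => e1 v]
  have e2 := (prod_univ_sum (fun _ : κ => (univ : Finset (Fin d)))
    (fun (q : κ) (i : Fin d) => (if q ∈ T ∧ (i = z0 ∨ i = z1) then (1 / 2 : ℝ) else 1))).symm
  rw [Fintype.piFinset_univ] at e2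
  rw [e2]
  have e3 : ∀ q : κ, ∑ i : Fin d, (if q ∈ T ∧ (i = z0 ∨ i = z1) then (1 / 2 : ℝ) else 1) =
      if q ∈ T then (d : ℝ) - 1 else d := by
    intro q
    by_cases hq : q ∈ T
    · simp only [hq, true_and, if_true]
      have : ∀ i : Fin d, (if i = z0 ∨ i = z1 then (1 / 2 : ℝ) else 1) =
          1 - (if i = z0 then (1 / 2 : ℝ) else 0) - (if i = z1 then (1 / 2 : ℝ) else 0) := by
        intro i
        by_cases h0 : i = z0
        · have : i ≠ z1 := fun h => hz (h0 ▸ h)
          simp [h0, hz]; norm_num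
        · by_cases h1 : i = z1
          · simp [h1, hz.symm]; norm_num
          · simp [h0, h1]
      rw [sum_congr rfl fun i _ => this i, sum_sub_distrib, sum_sub_distrib]
      simp
      ring
    · simp [hq]
  rw [prod_congr rfl fun q _ => e3 q, prod_ite, prod_const, prod_const]
  congr 2
  · congr 1; ext q; simp
  · rw [filter_not, card_sdiff_of_subset (filter_subset _ _), card_univ]
    congr 2; ext q; simp

theorem t_LO : S_LO := by
  classical
  intro d hd hde ε hε
  have hd2 : 2 ≤ d := by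
    obtain ⟨k, hk⟩ := hde; omega
  set z0 : Fin d := ⟨0, hd⟩ with hz0
  set z1 : Fin d := ⟨d / 2, by omega⟩ with hz1
  have hz : z0 ≠ z1 := by
    intro h
    have := congrArg Fin.val h
    simp [hz0, hz1] at this
    omega
  obtain ⟨K1, hK1⟩ := choose_half_small (ε / 2) (by positivity)
  have hdR : (2 : ℝ) ≤ d := by exact_mod_cast hd2
  have hr0 : 0 ≤ ((d : ℝ) - 1) / d := div_nonneg (by linarith) (by linarith)
  have hr1 : ((d : ℝ) - 1) / d < 1 := by
    rw [div_lt_one (by linarith)]; linarith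
  obtain ⟨K2, hK2⟩ : ∃ K2 : ℕ, (((d : ℝ) - 1) / d) ^ K2 < ε / 2 / 2 ^ K1 :=
    exists_pow_lt_of_lt_one (by positivity) hr1
  refine ⟨K2, ?_⟩
  intro κ _ T hT δ hδ f hf hgap a
  have h1 := count_swap z0 z1 T δ hδ f hf
    (fun q hq => hgap q hq z0 z1 rfl rfl) a
  have key : ∀ s : ℕ, ((s.choose (s / 2) : ℕ) : ℝ) / 2 ^ s ≤ ε / 2 + 2 ^ K1 * (1 / 2 : ℝ) ^ s := by
    intro s
    rcases le_or_gt K1 s with h | h
    · have := hK1 s h
      have h3 : ((s.choose (s / 2) : ℕ) : ℝ) / 2 ^ s ≤ ε / 2 := by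
        rw [div_le_iff₀ (by positivity)]; exact this
      have : (0 : ℝ) ≤ 2 ^ K1 * (1 / 2 : ℝ) ^ s := by positivity
      linarith
    · have h3 : ((s.choose (s / 2) : ℕ) : ℝ) ≤ 2 ^ s := by
        exact_mod_cast Nat.choose_le_two_pow s (s / 2)
      have h4 : ((s.choose (s / 2) : ℕ) : ℝ) / 2 ^ s ≤ 1 := by
        rw [div_le_one (by positivity)]; exact h3
      have h5 : (1 : ℝ) ≤ 2 ^ K1 * (1 / 2 : ℝ) ^ s := by
        rw [one_div, inv_pow, ← div_eq_mul_inv, le_div_iff₀ (by positivity), one_mul]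
        exact pow_le_pow_right₀ (by norm_num) h.le
      linarith
  refine h1.trans ?_
  calc _ ≤ ∑ v : κ → Fin d, (ε / 2 + 2 ^ K1 *
        (1 / 2 : ℝ) ^ #(T.filter fun q => v q = z0 ∨ v q = z1)) := sum_le_sum fun v _ => key _
    _ = ε / 2 * (d : ℝ) ^ Fintype.card κ + 2 ^ K1 * (((d : ℝ) - 1) ^ #T *
          (d : ℝ) ^ (Fintype.card κ - #T)) := by
        rw [sum_add_distrib, ← mul_sum, sum_weights z0 z1 hz T]
        simp [mul_comm]
    _ ≤ ε / 2 * (d : ℝ) ^ Fintype.card κ + ε / 2 * (d : ℝ) ^ Fintype.card κ := by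
        refine add_le_add le_rfl ?_
        have hTκ : #T ≤ Fintype.card κ := card_le_univ T
        have e1 : (d : ℝ) ^ Fintype.card κ = (d : ℝ) ^ #T * (d : ℝ) ^ (Fintype.card κ - #T) := by
          rw [← pow_add]; congr 1; omega
        rw [e1, ← mul_assoc, ← mul_assoc]
        apply mul_le_mul_of_nonneg_right _ (by positivity)
        have h6 : (((d : ℝ) - 1) / d) ^ #T ≤ ε / 2 / 2 ^ K1 :=
          (pow_le_pow_of_le_one hr0 hr1.le hT).trans hK2.le
        rw [div_pow, div_le_iff₀ (by positivity)] at h6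
        calc 2 ^ K1 * ((d : ℝ) - 1) ^ #T ≤ 2 ^ K1 * (ε / 2 / 2 ^ K1 * (d : ℝ) ^ #T) := by gcongr
          _ = ε / 2 * (d : ℝ) ^ #T := by field_simp
    _ = ε * (d : ℝ) ^ Fintype.card κ := by ring

end Pool.Agent.K1H41.RG
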